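import Pool.Agent.H24.TT2

set_option autoImplicit false

namespace Pool.Agent.Results.MP_fe892a_gt.Closed

open Set

/-- A subcontinuum: a compact connected (nonempty) subset. -/
def Subcont {S : Type} [TopologicalSpace S] (K : Set S) : Prop := IsCompact K ∧ IsConnected K

/-- Not the union of two proper subcontinua. -/
def Indec (X : Type) [TopologicalSpace X] : Prop :=
  ¬ ∃ A B : Set X, Subcont A ∧ Subcont B ∧ A ≠ univ ∧ B ≠ univ ∧ A ∪ B = univ

/-- The set function `T`. -/
def T {S : Type} [TopologicalSpace S] (A : Set S) : Set S :=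
  {p | ∃ K : Set S, Subcont K ∧ p ∈ interior K ∧ K ∩ A = ∅}ᶜ

open Pool.Agent.H24 Pool.Agent.Results.MP_cdfe0d_gt in
theorem result : ∃ (X Y : Type) (_ : TopologicalSpace X) (_ : TopologicalSpace Y),
    (CompactSpace X ∧ T2Space X ∧ ConnectedSpace X ∧ TopologicalSpace.MetrizableSpace X ∧ Indec X) ∧
    (CompactSpace Y ∧ T2Space Y ∧ ConnectedSpace Y ∧ TopologicalSpace.MetrizableSpace Y ∧ Indec Y) ∧
    ∃ A : Set (X × Y), IsClosed A ∧ T (T A) ≠ T A := by
  refine ⟨TT.X, Counter.X, inferInstance, inferInstance,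
    ⟨inferInstance, inferInstance, inferInstance, inferInstance, TT.indec⟩,
    ⟨inferInstance, inferInstance, ?_, inferInstance, Counter.indec⟩, TT.A, TT.A_cl, fun c => ?_⟩
  · rw [connectedSpace_iff_univ]
    convert (Counter.W_sub 0).1.2.image _ continuous_fst.continuousOn
    exact (eq_univ_of_forall fun x => mem_image_of_mem (x := (x, x)) _ (by simp [Counter.ρ])).symm
  · obtain ⟨p, hp⟩ := TT.K_int
    have h : T TT.A = univ := c.symm.trans TT.TT_univ
    exact (h.symm ▸ mem_univ p : p ∈ T _) ⟨_, ⟨TT.K_cpt, TT.K_con⟩, hp, TT.disj⟩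

end Pool.Agent.Results.MP_fe892a_gt.Closed
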